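import Mathlib

/-!
# Disjoint edge pairs in geometric graphs of given average degree

Every geometric graph with `n` vertices, `e` edges and average degree `d = 2e/n ≥ 1` has at least
`(n/2) * (d choose 3)` pairs of disjoint edges.  (MP_390221_co, Q1: proved.)

Proof.  A Z is a quadruple `(u, v, a, b)` with `uv, ua, vb` edges and `a, b` on different sides of
the line `uv`; then the edges `ua`, `vb` are disjoint, and every pair of edges belongs to at most four
ordered Z's (two of the four connecting segments).  For a vertex `u` let `L(u,v)` be the number of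
neighbours of `u` to the left of the ray `uv`; for fixed `u` these numbers are the scores of a
tournament.  With `g(x) = ∑_{k<m} min(x,k)` we have `x y ≥ g(x) + g(y) - (m choose 2)` and
`∑_v g(L(u,v)) ≥ deg(u) (m choose 2) - (m+1 choose 3)`.  Summing,
`|DJ| ≥ e (m choose 2) - n (m+1 choose 3)` for every `m`, and `m = ⌊d⌋` gives the theorem.
-/

namespace Pool.Agent.Results.MP_390221_co.DisjointPairs

open Finset

/-- The Euclidean plane. -/
abbrev Plane := EuclideanSpace ℝ (Fin 2)

/-- A geometric graph: a finite set of points of the plane, no three on a line, and a set of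
straight line segments joining some pairs of its points (given as a simple graph on the points). -/
structure GeometricGraph where
  /-- the vertex set -/
  V : Finset Plane
  /-- no three vertices are collinear -/
  general : ∀ a ∈ V, ∀ b ∈ V, ∀ c ∈ V, a ≠ b → b ≠ c → a ≠ c → ¬ Collinear ℝ ({a, b, c} : Set Plane)
  /-- the edges, as a simple graph on the vertex set -/
  graph : SimpleGraph V

namespace GeometricGraph

variable (G : GeometricGraph)

/-- The closed segment of an edge. -/
def seg (e : Sym2 G.V) : Set Plane :=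
  Sym2.lift ⟨fun a b : G.V => segment ℝ (a : Plane) (b : Plane),
    fun a b => segment_symm ℝ (a : Plane) (b : Plane)⟩ e

/-- The set of unordered pairs of disjoint edges (edges whose closed segments have no common
point). -/
def DJ : Set (Sym2 (Sym2 G.V)) :=
  {q | ∃ e ∈ G.graph.edgeSet, ∃ f ∈ G.graph.edgeSet, q = s(e, f) ∧ Disjoint (G.seg e) (G.seg f)}

/-- The number of vertices. -/
def n : ℕ := G.V.card

/-- The number of edges. -/
noncomputable def e : ℕ := G.graph.edgeSet.ncard

/-- The average degree `2e/n`. -/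
noncomputable def d : ℝ := 2 * G.e / G.n

end GeometricGraph

/-- `x choose 3` for real `x`. -/
noncomputable def choose3 (x : ℝ) : ℝ := x * (x - 1) * (x - 2) / 6

/-! ### Combinatorial part -/

/-- `g m x = ∑_{k<m} min x k`. -/
def g (m x : ℕ) : ℕ := ∑ k ∈ range m, min x k

lemma two_g_of_le (m x : ℕ) (h : x ≤ m) : (2 : ℤ) * g m x = x * (2 * m - x - 1) := by
  induction m with
  | zero =>
    have : x = 0 := by omega
    subst this
    simp [g]
  | succ m ih =>
    rcases Nat.lt_or_ge m x with hx | hx
    · have hx' : x = m + 1 := by omega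
      subst hx'
      have : g (m + 1) (m + 1) = ∑ k ∈ range (m + 1), k := by
        unfold g
        apply sum_congr rfl
        intro k hk
        rw [mem_range] at hk
        omega
      rw [this]
      have h2 := Finset.sum_range_id_mul_two (m + 1)
      have h3 : ((∑ k ∈ range (m + 1), k : ℕ) : ℤ) * 2 = (m + 1) * m := by
        have := congrArg (fun t : ℕ => (t : ℤ)) h2
        push_cast at this
        simpa using this
      push_cast at h3 ⊢
      linarith
    · have : g (m + 1) x = g m x + x := by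
        unfold g
        rw [sum_range_succ]
        congr 1
        omega
      rw [this]
      push_cast
      have := ih hx
      linarith

lemma g_le_mul (m x : ℕ) : g m x ≤ m * x := by
  unfold g
  calc ∑ k ∈ range m, min x k ≤ ∑ _k ∈ range m, x := sum_le_sum fun k _ => min_le_left _ _
    _ = m * x := by simp

lemma two_g_le (m x : ℕ) : (2 : ℤ) * g m x ≤ m * (m - 1) := by
  have h1 : g m x ≤ ∑ k ∈ range m, k := sum_le_sum fun k _ => min_le_right _ _
  have h2 := Finset.sum_range_id_mul_two m
  rcases m with _ | m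
  · simp [g]
  · have h3 : ((∑ k ∈ range (m + 1), k : ℕ) : ℤ) * 2 = (m + 1) * m := by
      have := congrArg (fun t : ℕ => (t : ℤ)) h2
      push_cast at this
      simpa using this
    have h1' : (g (m + 1) x : ℤ) ≤ ((∑ k ∈ range (m + 1), k : ℕ) : ℤ) := by exact_mod_cast h1
    push_cast at h3 h1' ⊢
    linarith

/-- The pointwise inequality `x y ≥ g(x) + g(y) - (m choose 2)`. -/
lemma pointwise (m x y : ℕ) : (2 : ℤ) * g m x + 2 * g m y ≤ 2 * (x * y) + m * (m - 1) := by
  rcases Nat.lt_or_ge m x with hx | hx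
  · have h1 := two_g_le m x
    have h2 : (g m y : ℤ) ≤ m * y := by exact_mod_cast g_le_mul m y
    have h3 : (m : ℤ) * y ≤ x * y := by
      apply mul_le_mul_of_nonneg_right _ (by positivity)
      exact_mod_cast hx.le
    linarith
  rcases Nat.lt_or_ge m y with hy | hy
  · have h1 := two_g_le m y
    have h2 : (g m x : ℤ) ≤ m * x := by exact_mod_cast g_le_mul m x
    have h3 : (m : ℤ) * x ≤ y * x := by
      apply mul_le_mul_of_nonneg_right _ (by positivity)
      exact_mod_cast hy.le
    have : (x : ℤ) * y = y * x := by ring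
    linarith
  rw [two_g_of_le m x hx, two_g_of_le m y hy]
  have key : (0 : ℤ) ≤ ((x : ℤ) + y - m) * ((x : ℤ) + y - m + 1) := by
    rcases lt_or_ge ((x : ℤ) + y - m) 0 with h | h
    · have h' : (x : ℤ) + y - m + 1 ≤ 0 := by omega
      exact mul_nonneg_of_nonpos_of_nonpos h.le h'
    · positivity
  nlinarith [key]

/-- In a finite set with a relation that is total on distinct elements, the truncated scores have
at least the sum they have in a transitive tournament. -/
lemma score_sum {α : Type*} [DecidableEq α] (S : Finset α) (r : α → α → Prop) [DecidableRel r]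
    (hr : ∀ x ∈ S, ∀ y ∈ S, x ≠ y → r x y ∨ r y x) (k : ℕ) :
    (2 : ℤ) * (k * S.card) ≤
      2 * ((∑ x ∈ S, min ((S.filter (r x)).card) k : ℕ) : ℤ) + k * (k + 1) := by
  classical
  set S' := S.filter (fun x => (S.filter (r x)).card < k) with hS'
  have hsub : S' ⊆ S := filter_subset _ _
  -- pairs inside S'
  have h1 : S'.offDiag.card ≤ 2 * ∑ x ∈ S', (S'.filter (r x)).card := by
    have e1 : S'.offDiag ⊆ ((S' ×ˢ S').filter (fun p => r p.1 p.2)) ∪
        ((S' ×ˢ S').filter (fun p => r p.2 p.1)) := by
      intro p hp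
      rw [mem_offDiag] at hp
      rw [mem_union, mem_filter, mem_filter, mem_product]
      rcases hr p.1 (hsub hp.1) p.2 (hsub hp.2.1) hp.2.2 with h | h
      · exact Or.inl ⟨⟨hp.1, hp.2.1⟩, h⟩
      · exact Or.inr ⟨⟨hp.1, hp.2.1⟩, h⟩
    have e2 : ((S' ×ˢ S').filter (fun p => r p.1 p.2)).card = ∑ x ∈ S', (S'.filter (r x)).card := by
      rw [card_filter, sum_product]
      apply sum_congr rfl
      intro x _
      rw [card_filter]
    have e3 : ((S' ×ˢ S').filter (fun p => r p.2 p.1)).card = ∑ x ∈ S', (S'.filter (r x)).card := by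
      rw [card_filter, sum_product_right]
      apply sum_congr rfl
      intro x _
      rw [card_filter]
    calc S'.offDiag.card ≤ _ := card_le_card e1
      _ ≤ _ := card_union_le _ _
      _ = 2 * ∑ x ∈ S', (S'.filter (r x)).card := by rw [e2, e3]; ring
  have h2 : ∑ x ∈ S', (S'.filter (r x)).card ≤ ∑ x ∈ S', min ((S.filter (r x)).card) k := by
    apply sum_le_sum
    intro x hx
    rw [hS', mem_filter] at hx
    rw [min_eq_left hx.2.le]
    exact card_le_card (filter_subset_filter _ hsub)
  have h3 : ∑ x ∈ S \ S', min ((S.filter (r x)).card) k = k * (S \ S').card := by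
    rw [sum_congr rfl (g := fun _ => k)]
    · simp [mul_comm]
    · intro x hx
      rw [mem_sdiff, hS', mem_filter] at hx
      have : ¬ (S.filter (r x)).card < k := fun h => hx.2 ⟨hx.1, h⟩
      omega
  have h4 : (S \ S').card + S'.card = S.card := by
    rw [card_sdiff_add_card_eq_card hsub]
  have h5 : ∑ x ∈ S, min ((S.filter (r x)).card) k =
      ∑ x ∈ S \ S', min ((S.filter (r x)).card) k + ∑ x ∈ S', min ((S.filter (r x)).card) k :=
    (sum_sdiff hsub).symm
  rw [offDiag_card] at h1
  have h6 : (S'.card : ℤ) * S'.card - S'.card ≤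
      2 * ((∑ x ∈ S', min ((S.filter (r x)).card) k : ℕ) : ℤ) := by
    have : S'.card * S'.card - S'.card ≤ 2 * ∑ x ∈ S', min ((S.filter (r x)).card) k :=
      h1.trans (Nat.mul_le_mul_left 2 h2)
    have h7 : S'.card * S'.card ≤ 2 * ∑ x ∈ S', min ((S.filter (r x)).card) k + S'.card := by omega
    have h8 : ((S'.card * S'.card : ℕ) : ℤ) ≤
        ((2 * ∑ x ∈ S', min ((S.filter (r x)).card) k + S'.card : ℕ) : ℤ) := by exact_mod_cast h7
    push_cast at h8 ⊢
    linarith
  rw [h5, h3]
  have h4' : ((S \ S').card : ℤ) = S.card - S'.card := by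
    have : (((S \ S').card + S'.card : ℕ) : ℤ) = S.card := by exact_mod_cast h4
    push_cast at this
    linarith
  push_cast at h6 ⊢
  rw [h4']
  have key : (0 : ℤ) ≤ ((k : ℤ) - S'.card) * ((k : ℤ) - S'.card + 1) := by
    rcases lt_or_ge ((k : ℤ) - S'.card) 0 with h | h
    · have h' : (k : ℤ) - S'.card + 1 ≤ 0 := by omega
      exact mul_nonneg_of_nonpos_of_nonpos h.le h'
    · positivity
  nlinarith [key, h6]

/-- The sum of `g` over the scores. -/
lemma g_score_sum {α : Type*} [DecidableEq α] (S : Finset α) (r : α → α → Prop) [DecidableRel r]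
    (hr : ∀ x ∈ S, ∀ y ∈ S, x ≠ y → r x y ∨ r y x) (m : ℕ) :
    (3 : ℤ) * (m * (m - 1) * S.card) ≤
      6 * ((∑ x ∈ S, g m ((S.filter (r x)).card) : ℕ) : ℤ) + (m + 1) * m * (m - 1) := by
  induction m with
  | zero => simp [g]
  | succ m ih =>
    have h1 := score_sum S r hr m
    have h2 : ∑ x ∈ S, g (m + 1) ((S.filter (r x)).card) =
        ∑ x ∈ S, g m ((S.filter (r x)).card) + ∑ x ∈ S, min ((S.filter (r x)).card) m := by
      rw [← sum_add_distrib]
      apply sum_congr rfl
      intro x _
      unfold g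
      rw [sum_range_succ]
    rw [h2]
    push_cast at h1 ih ⊢
    linarith

/-- The abstract counting bound: `G` a graph on a finite type, `r u` a relation which is total on
distinct neighbours of `u`. -/
lemma abstract_bound {V : Type*} [Fintype V] [DecidableEq V] (G : SimpleGraph V)
    [DecidableRel G.Adj] (r : V → V → V → Prop) [∀ u v, DecidablePred (r u v)]
    (hr : ∀ u x y, G.Adj u x → G.Adj u y → x ≠ y → r u x y ∨ r u y x) (m : ℕ) :
    (3 : ℤ) * (m * (m - 1) * (2 * G.edgeFinset.card)) ≤
      6 * ((∑ u, ∑ v ∈ G.neighborFinset u,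
        ((G.neighborFinset u).filter (r u v)).card * ((G.neighborFinset v).filter (r v u)).card : ℕ) : ℤ)
      + 2 * ((m + 1) * m * (m - 1)) * Fintype.card V := by
  classical
  set L : V → V → ℕ := fun u v => ((G.neighborFinset u).filter (r u v)).card with hL
  have hdeg : ((∑ u, (G.neighborFinset u).card : ℕ) : ℤ) = 2 * G.edgeFinset.card := by
    have := G.sum_degrees_eq_twice_card_edges
    have h' : ∑ u, (G.neighborFinset u).card = 2 * G.edgeFinset.card := by
      simpa using this
    exact_mod_cast h'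
  -- pointwise
  have h1 : (2 : ℤ) * ((∑ u, ∑ v ∈ G.neighborFinset u, g m (L u v) : ℕ) : ℤ)
      + 2 * ((∑ u, ∑ v ∈ G.neighborFinset u, g m (L v u) : ℕ) : ℤ)
      ≤ 2 * ((∑ u, ∑ v ∈ G.neighborFinset u, L u v * L v u : ℕ) : ℤ)
        + m * (m - 1) * (2 * G.edgeFinset.card) := by
    rw [← hdeg]
    push_cast
    rw [mul_sum, mul_sum, mul_sum, mul_sum, ← sum_add_distrib, ← sum_add_distrib]
    apply sum_le_sum
    intro u _
    have : ((m : ℤ) * (m - 1)) * ((G.neighborFinset u).card : ℤ) =
        ∑ _v ∈ G.neighborFinset u, ((m : ℤ) * (m - 1)) := by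
      rw [sum_const, nsmul_eq_mul]; ring
    rw [this, mul_sum, mul_sum, mul_sum, ← sum_add_distrib, ← sum_add_distrib]
    apply sum_le_sum
    intro v _
    exact pointwise m (L u v) (L v u)
  have h2 : ∑ u, ∑ v ∈ G.neighborFinset u, g m (L v u) =
      ∑ u, ∑ v ∈ G.neighborFinset u, g m (L u v) := by
    apply Finset.sum_comm'
    intro u v
    simp [G.adj_comm]
  have h3 : ∀ u, (3 : ℤ) * (m * (m - 1) * (G.neighborFinset u).card) ≤
      6 * ((∑ v ∈ G.neighborFinset u, g m (L u v) : ℕ) : ℤ) + (m + 1) * m * (m - 1) := by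
    intro u
    have := g_score_sum (G.neighborFinset u) (r u) (by
      intro x hx y hy hxy
      rw [SimpleGraph.mem_neighborFinset] at hx hy
      exact hr u x y hx hy hxy) m
    exact this
  have h4 : (3 : ℤ) * (m * (m - 1) * (2 * G.edgeFinset.card)) ≤
      6 * ((∑ u, ∑ v ∈ G.neighborFinset u, g m (L u v) : ℕ) : ℤ)
        + ((m + 1) * m * (m - 1)) * Fintype.card V := by
    have h5 := sum_le_sum (s := (univ : Finset V)) (fun u _ => h3 u)
    rw [← mul_sum, ← mul_sum, sum_add_distrib, ← mul_sum, sum_const, nsmul_eq_mul] at h5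
    have h6 : ((Finset.univ : Finset V).card : ℤ) = Fintype.card V := by simp
    rw [h6] at h5
    rw [← hdeg]
    push_cast at h5 ⊢
    linarith
  rw [h2] at h1
  linarith

/-! ### Geometric part -/

/-- Twice the signed area of the triangle `x y z`. -/
noncomputable def o (x y z : Plane) : ℝ :=
  (y 0 - x 0) * (z 1 - x 1) - (y 1 - x 1) * (z 0 - x 0)

lemma o_swap (x y z : Plane) : o y x z = - o x y z := by unfold o; ring

lemma o_swap' (x y z : Plane) : o x z y = - o x y z := by unfold o; ring

lemma o_four (u v a b : Plane) : o u v a - o u v b + o u a b - o v a b = 0 := by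
  unfold o; ring

lemma o_ne_zero {x y z : Plane} (h : ¬ Collinear ℝ ({x, y, z} : Set Plane)) : o x y z ≠ 0 := by
  intro h0
  apply h
  by_cases hxy : x = y
  · subst hxy
    rw [Set.insert_eq_of_mem (Set.mem_insert x {z})]
    exact collinear_pair ℝ x z
  rw [collinear_iff_of_mem (p₀ := x) (by simp)]
  refine ⟨y - x, ?_⟩
  have hne : y 0 - x 0 ≠ 0 ∨ y 1 - x 1 ≠ 0 := by
    by_contra hcon
    push Not at hcon
    apply hxy
    ext i
    fin_cases i
    · show x 0 = y 0
      linarith [hcon.1]
    · show x 1 = y 1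
      linarith [hcon.2]
  unfold o at h0
  intro p hp
  rw [Set.mem_insert_iff, Set.mem_insert_iff, Set.mem_singleton_iff] at hp
  rcases hp with rfl | rfl | rfl
  · exact ⟨0, by simp⟩
  · exact ⟨1, by simp⟩
  · rcases hne with hne | hne
    · refine ⟨(p 0 - x 0) / (y 0 - x 0), ?_⟩
      ext i
      fin_cases i
      · show p 0 = (p 0 - x 0) / (y 0 - x 0) * (y 0 - x 0) + x 0
        field_simp
        ring
      · show p 1 = (p 0 - x 0) / (y 0 - x 0) * (y 1 - x 1) + x 1
        field_simp
        linarith
    · refine ⟨(p 1 - x 1) / (y 1 - x 1), ?_⟩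
      ext i
      fin_cases i
      · show p 0 = (p 1 - x 1) / (y 1 - x 1) * (y 0 - x 0) + x 0
        field_simp
        linarith
      · show p 1 = (p 1 - x 1) / (y 1 - x 1) * (y 1 - x 1) + x 1
        field_simp
        ring

/-- Two segments starting at two points of a line and going to different sides are disjoint. -/
lemma disjoint_of_opposite {u v a b : Plane} (h : o u v a * o u v b < 0) :
    Disjoint (segment ℝ u a) (segment ℝ v b) := by
  rw [Set.disjoint_left]
  intro z hz hz'
  obtain ⟨s', s, hs', hs, hss, rfl⟩ := hz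
  obtain ⟨t', t, ht', ht, htt, hz⟩ := hz'
  have e1 : s' = 1 - s := by linarith
  have e2 : t' = 1 - t := by linarith
  subst e1 e2
  have c0 : (1 - t) * v 0 + t * b 0 = (1 - s) * u 0 + s * a 0 := by
    have := congrArg (fun p : Plane => p 0) hz
    simpa using this
  have c1 : (1 - t) * v 1 + t * b 1 = (1 - s) * u 1 + s * a 1 := by
    have := congrArg (fun p : Plane => p 1) hz
    simpa using this
  have k1 : s * o u v a = t * o u v b := by
    unfold o
    have x0 : s * (a 0 - u 0) = (v 0 - u 0) + t * (b 0 - v 0) := by linarith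
    have x1 : s * (a 1 - u 1) = (v 1 - u 1) + t * (b 1 - v 1) := by linarith
    calc s * ((v 0 - u 0) * (a 1 - u 1) - (v 1 - u 1) * (a 0 - u 0))
        = (v 0 - u 0) * (s * (a 1 - u 1)) - (v 1 - u 1) * (s * (a 0 - u 0)) := by ring
      _ = t * ((v 0 - u 0) * (b 1 - u 1) - (v 1 - u 1) * (b 0 - u 0)) := by
          rw [x0, x1]; ring
  have hs0 : s = 0 := by
    by_contra hne
    have hspos : 0 < s := lt_of_le_of_ne hs (Ne.symm hne)
    have h1 : s * (o u v a * o u v a) = t * (o u v a * o u v b) := by
      calc s * (o u v a * o u v a) = o u v a * (s * o u v a) := by ring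
        _ = o u v a * (t * o u v b) := by rw [k1]
        _ = t * (o u v a * o u v b) := by ring
    have h2 : 0 < o u v a * o u v a := by
      have : o u v a ≠ 0 := by
        intro h0; rw [h0] at h; simp at h
      exact mul_self_pos.2 this
    have h3 : 0 < s * (o u v a * o u v a) := by positivity
    have h4 : t * (o u v a * o u v b) ≤ 0 := mul_nonpos_of_nonneg_of_nonpos ht h.le
    linarith
  have ht0 : t = 0 := by
    rw [hs0, zero_mul] at k1
    rcases mul_eq_zero.1 k1.symm with h' | h'
    · exact h'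
    · rw [h'] at h; simp at h
  subst hs0 ht0
  have : u = v := by
    ext i
    fin_cases i
    · show u 0 = v 0
      linarith
    · show u 1 = v 1
      linarith
  subst this
  have : o u u a = 0 := by unfold o; ring
  rw [this] at h
  simp at h

lemma sgn_aux {A B C D : ℝ} (h : A + D = B + C) (hA : A ≠ 0) (hB : A * B < 0) (hC : A * C < 0)
    (hD : 0 < A * D) : False := by
  have h1 : A * A + A * D = A * B + A * C := by
    calc A * A + A * D = A * (A + D) := by ring
      _ = A * (B + C) := by rw [h]
      _ = A * B + A * C := by ring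
  have h2 : 0 < A * A := mul_self_pos.2 hA
  linarith

/-- At most two of the four connecting segments of two segments form a Z. -/
lemma at_most_two (A B C D : ℝ) (h : A + D = B + C) :
    (if A * B < 0 then 1 else 0) + (if 0 < B * C then 1 else 0) + (if 0 < A * D then 1 else 0)
      + (if C * D < 0 then 1 else 0) ≤ 2 := by
  rcases lt_trichotomy A 0 with hA | hA | hA <;> rcases lt_trichotomy B 0 with hB | hB | hB <;>
  rcases lt_trichotomy C 0 with hC | hC | hC <;> rcases lt_trichotomy D 0 with hD | hD | hD <;>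
  first
  | (exfalso; linarith)
  | (simp only [hA, hB, hC, hD, mul_zero, zero_mul, lt_irrefl, if_false]; split_ifs <;> norm_num)
  | (simp only [mul_neg_iff, mul_pos_iff, hA, hB, hC, hD, hA.not_gt, hB.not_gt, hC.not_gt,
      hD.not_gt, and_true, and_false, or_true, or_false, false_or, if_true, if_false,
      and_self, or_self]; norm_num)

lemma card_filter_insert_le {α : Type*} [DecidableEq α] (Z : α → Prop) [DecidablePred Z] (a : α)
    (s : Finset α) : ((insert a s).filter Z).card ≤ (if Z a then 1 else 0) + (s.filter Z).card := by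
  rw [filter_insert]
  split_ifs with h
  · rw [add_comm]; exact card_insert_le _ _
  · simp

/-- The Z condition for a quadruple `((u, v), (a, b))` of points. -/
def Zc (q : (Plane × Plane) × (Plane × Plane)) : Prop :=
  o q.1.1 q.1.2 q.2.1 * o q.1.1 q.1.2 q.2.2 < 0

open Classical in
/-- Of the four quadruples that come from an ordered pair of segments, at most two are Z's. -/
lemma four_le_two {W : Type*} [DecidableEq ((W × W) × (W × W))] (f : W → Plane) (x y z w : W) :
    (({((x, z), (y, w)), ((x, w), (y, z)), ((y, z), (x, w)), ((y, w), (x, z))} :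
      Finset ((W × W) × (W × W))).filter
        (fun q => Zc ((f q.1.1, f q.1.2), (f q.2.1, f q.2.2)))).card ≤ 2 := by
  have h := at_most_two (o (f x) (f z) (f y)) (o (f x) (f z) (f w)) (o (f x) (f w) (f y))
    (o (f y) (f z) (f w)) (by unfold o; ring)
  refine le_trans (card_filter_insert_le _ _ _) (le_trans (Nat.add_le_add_left
    (card_filter_insert_le _ _ _) _) (le_trans (Nat.add_le_add_left (Nat.add_le_add_left
    (card_filter_insert_le _ _ _) _) _) ?_))
  rw [filter_singleton]
  have e1 : Zc ((f x, f z), (f y, f w)) ↔ o (f x) (f z) (f y) * o (f x) (f z) (f w) < 0 := Iff.rfl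
  have e2 : Zc ((f x, f w), (f y, f z)) ↔ 0 < o (f x) (f z) (f w) * o (f x) (f w) (f y) := by
    show o (f x) (f w) (f y) * o (f x) (f w) (f z) < 0 ↔ _
    rw [o_swap' (f x) (f z) (f w)]
    constructor <;> intro h <;> linarith
  have e3 : Zc ((f y, f z), (f x, f w)) ↔ 0 < o (f x) (f z) (f y) * o (f y) (f z) (f w) := by
    show o (f y) (f z) (f x) * o (f y) (f z) (f w) < 0 ↔ _
    have : o (f y) (f z) (f x) = - o (f x) (f z) (f y) := by unfold o; ring
    rw [this]
    constructor <;> intro h <;> linarith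
  have e4 : Zc ((f y, f w), (f x, f z)) ↔ o (f x) (f w) (f y) * o (f y) (f z) (f w) < 0 := by
    show o (f y) (f w) (f x) * o (f y) (f w) (f z) < 0 ↔ _
    have h1 : o (f y) (f w) (f x) = - o (f x) (f w) (f y) := by unfold o; ring
    rw [h1, o_swap' (f y) (f z) (f w)]
    constructor <;> intro h <;> linarith
  by_cases c1 : o (f x) (f z) (f y) * o (f x) (f z) (f w) < 0 <;>
  by_cases c2 : 0 < o (f x) (f z) (f w) * o (f x) (f w) (f y) <;>
  by_cases c3 : 0 < o (f x) (f z) (f y) * o (f y) (f z) (f w) <;>
  by_cases c4 : o (f x) (f w) (f y) * o (f y) (f z) (f w) < 0 <;>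
  simp [e1, e2, e3, e4, c1, c2, c3, c4] at h ⊢

namespace GeometricGraph

variable (G : GeometricGraph)

open Classical in
/-- The set of all Z's of a geometric graph. -/
noncomputable def Q : Finset ((G.V × G.V) × (G.V × G.V)) :=
  univ.filter (fun q => G.graph.Adj q.1.1 q.1.2 ∧ G.graph.Adj q.1.1 q.2.1 ∧
    G.graph.Adj q.1.2 q.2.2 ∧ Zc ((q.1.1, q.1.2), (q.2.1, q.2.2)))

open Classical in
lemma card_Q_le : G.Q.card ≤ 4 * G.DJ.ncard := by
  rw [Set.ncard_eq_toFinset_card G.DJ]
  apply card_le_mul_card_image_of_maps_to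
    (f := fun q : (G.V × G.V) × (G.V × G.V) => s(s(q.1.1, q.2.1), s(q.1.2, q.2.2)))
  · rintro ⟨⟨u, v⟩, ⟨a, b⟩⟩ hq
    rw [Q, mem_filter] at hq
    obtain ⟨-, h1, h2, h3, h4⟩ := hq
    rw [Set.Finite.mem_toFinset]
    refine ⟨s(u, a), h2, s(v, b), h3, rfl, ?_⟩
    exact disjoint_of_opposite h4
  · intro q hq
    rw [Set.Finite.mem_toFinset] at hq
    obtain ⟨e, -, f, -, rfl, -⟩ := hq
    induction e using Sym2.ind with
    | _ x y =>
    induction f using Sym2.ind with
    | _ z w =>
    have hsub : (G.Q.filter (fun q => s(s(q.1.1, q.2.1), s(q.1.2, q.2.2)) = s(s(x, y), s(z, w)))) ⊆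
        (({((x, z), (y, w)), ((x, w), (y, z)), ((y, z), (x, w)), ((y, w), (x, z))} :
        Finset ((G.V × G.V) × (G.V × G.V))).filter
        (fun q => Zc (((fun t : G.V => (t : Plane)) q.1.1, (fun t : G.V => (t : Plane)) q.1.2),
          ((fun t : G.V => (t : Plane)) q.2.1, (fun t : G.V => (t : Plane)) q.2.2)))) ∪
        (({((z, x), (w, y)), ((z, y), (w, x)), ((w, x), (z, y)), ((w, y), (z, x))} :
        Finset ((G.V × G.V) × (G.V × G.V))).filter
        (fun q => Zc (((fun t : G.V => (t : Plane)) q.1.1, (fun t : G.V => (t : Plane)) q.1.2),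
          ((fun t : G.V => (t : Plane)) q.2.1, (fun t : G.V => (t : Plane)) q.2.2)))) := by
      rintro ⟨⟨u, v⟩, ⟨a, b⟩⟩ hq
      rw [mem_filter, Q, mem_filter] at hq
      obtain ⟨⟨-, -, -, -, h4⟩, h5⟩ := hq
      simp only at h5
      rw [mem_union, mem_filter, mem_filter]
      rw [Sym2.eq_iff] at h5
      rcases h5 with ⟨h5, h6⟩ | ⟨h5, h6⟩
      · left
        refine ⟨?_, h4⟩
        rw [Sym2.eq_iff] at h5 h6
        rcases h5 with ⟨rfl, rfl⟩ | ⟨rfl, rfl⟩ <;> rcases h6 with ⟨rfl, rfl⟩ | ⟨rfl, rfl⟩ <;> simp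
      · right
        refine ⟨?_, h4⟩
        rw [Sym2.eq_iff] at h5 h6
        rcases h5 with ⟨rfl, rfl⟩ | ⟨rfl, rfl⟩ <;> rcases h6 with ⟨rfl, rfl⟩ | ⟨rfl, rfl⟩ <;> simp
    refine le_trans (card_le_card hsub) (le_trans (card_union_le _ _) ?_)
    have h1 := four_le_two (fun t : G.V => (t : Plane)) x y z w
    have h2 := four_le_two (fun t : G.V => (t : Plane)) z w x y
    exact Nat.add_le_add h1 h2

open Classical in
/-- number of Z's at least the sum of the left and of the right products. -/
lemma le_card_Q :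
    (∑ u : G.V, ∑ v ∈ G.graph.neighborFinset u,
      ((G.graph.neighborFinset u).filter (fun a : G.V => 0 < o u v a)).card *
      ((G.graph.neighborFinset v).filter (fun a : G.V => 0 < o v u a)).card) +
    (∑ u : G.V, ∑ v ∈ G.graph.neighborFinset u,
      ((G.graph.neighborFinset u).filter (fun a : G.V => o u v a < 0)).card *
      ((G.graph.neighborFinset v).filter (fun a : G.V => o v u a < 0)).card) ≤ G.Q.card := by
  have h1 : G.Q.card = ∑ u : G.V, ∑ v : G.V, ((univ : Finset (G.V × G.V)).filter
      (fun q => G.graph.Adj u v ∧ G.graph.Adj u q.1 ∧ G.graph.Adj v q.2 ∧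
        Zc ((u, v), (q.1, q.2)))).card := by
    rw [Q, card_filter, Fintype.sum_prod_type, Fintype.sum_prod_type]
    apply sum_congr rfl
    intro u _
    apply sum_congr rfl
    intro v _
    rw [card_filter]
  rw [h1, ← sum_add_distrib]
  apply sum_le_sum
  intro u _
  rw [← sum_add_distrib]
  refine le_trans ?_ (sum_le_sum_of_subset (subset_univ (G.graph.neighborFinset u)))
  apply sum_le_sum
  intro v hv
  rw [SimpleGraph.mem_neighborFinset] at hv
  rw [← card_product, ← card_product]
  rw [← card_union_of_disjoint]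
  · apply card_le_card
    intro q hq
    rw [mem_union, mem_product, mem_product, mem_filter, mem_filter, mem_filter, mem_filter,
      SimpleGraph.mem_neighborFinset, SimpleGraph.mem_neighborFinset] at hq
    rw [mem_filter]
    rcases hq with ⟨⟨h2, h3⟩, ⟨h4, h5⟩⟩ | ⟨⟨h2, h3⟩, ⟨h4, h5⟩⟩
    · refine ⟨mem_univ _, hv, h2, h4, ?_⟩
      show o u v q.1 * o u v q.2 < 0
      rw [o_swap] at h5
      apply mul_neg_of_pos_of_neg h3
      linarith
    · refine ⟨mem_univ _, hv, h2, h4, ?_⟩
      show o u v q.1 * o u v q.2 < 0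
      rw [o_swap] at h5
      apply mul_neg_of_neg_of_pos h3
      linarith
  · rw [Finset.disjoint_left]
    intro q hq hq'
    rw [mem_product, mem_filter] at hq hq'
    exact lt_asymm hq.1.2 hq'.1.2

open Classical in
/-- The integer form: `|DJ| ≥ e (m choose 2) - n (m+1 choose 3)` for every natural number `m`. -/
lemma integer_form (m : ℕ) :
    (3 : ℤ) * (m * (m - 1)) * G.e ≤ 6 * G.DJ.ncard + (m + 1) * m * (m - 1) * G.n := by
  have gen : ∀ u x y : G.V, G.graph.Adj u x → G.graph.Adj u y → x ≠ y → o u x y ≠ 0 := by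
    intro u x y hx hy hxy
    apply o_ne_zero
    apply G.general u u.2 x x.2 y y.2
    · intro h; exact hx.ne (Subtype.ext h)
    · intro h; exact hxy (Subtype.ext h)
    · intro h; exact hy.ne (Subtype.ext h)
  have hL := abstract_bound G.graph (fun u v a => 0 < o u v a) (by
    intro u x y hx hy hxy
    rcases lt_trichotomy (o (u : Plane) x y) 0 with h | h | h
    · right
      rw [o_swap']; linarith
    · exact absurd h (gen u x y hx hy hxy)
    · left; exact h) m
  have hR := abstract_bound G.graph (fun u v a => o u v a < 0) (by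
    intro u x y hx hy hxy
    rcases lt_trichotomy (o (u : Plane) x y) 0 with h | h | h
    · left; exact h
    · exact absurd h (gen u x y hx hy hxy)
    · right
      rw [o_swap']; linarith) m
  have h1 := G.le_card_Q
  have h2 := G.card_Q_le
  have h3 : (((∑ u : G.V, ∑ v ∈ G.graph.neighborFinset u,
      ((G.graph.neighborFinset u).filter (fun a : G.V => 0 < o u v a)).card *
      ((G.graph.neighborFinset v).filter (fun a : G.V => 0 < o v u a)).card) +
    (∑ u : G.V, ∑ v ∈ G.graph.neighborFinset u,
      ((G.graph.neighborFinset u).filter (fun a : G.V => o u v a < 0)).card *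
      ((G.graph.neighborFinset v).filter (fun a : G.V => o v u a < 0)).card) : ℕ) : ℤ) ≤
      ((4 * G.DJ.ncard : ℕ) : ℤ) := by
    exact_mod_cast h1.trans h2
  have he : (G.graph.edgeFinset.card : ℤ) = G.e := by
    rw [GeometricGraph.e, Set.ncard_eq_toFinset_card' ]
    rfl
  have hn : (Fintype.card G.V : ℤ) = G.n := by
    rw [GeometricGraph.n, Fintype.card_coe]
  rw [he, hn] at hL hR
  rw [Nat.cast_add] at h3
  push_cast at h3 hL hR ⊢
  linarith

end GeometricGraph

lemma two_choose_two (m : ℕ) : (2 : ℤ) * (m.choose 2 : ℤ) = m * (m - 1) := by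
  induction m with
  | zero => simp
  | succ m ih =>
    rw [Nat.choose_succ_succ' m 1, Nat.choose_one_right]
    push_cast
    linarith

lemma six_choose_three (m : ℕ) : (6 : ℤ) * ((m + 1).choose 3 : ℤ) = (m + 1) * m * (m - 1) := by
  induction m with
  | zero => simp [Nat.choose_eq_zero_of_lt (show 1 < 3 by norm_num)]
  | succ m ih =>
    rw [Nat.choose_succ_succ' (m + 1) 2]
    have := two_choose_two (m + 1)
    push_cast at this ⊢
    linarith

/-- The lower bound of Q1. -/
lemma q1 (G : GeometricGraph) (h : G.n ≤ 2 * G.e) :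
    (G.n : ℝ) / 2 * choose3 G.d ≤ (G.DJ.ncard : ℝ) := by
  rcases Nat.eq_zero_or_pos G.n with hn | hn
  · rw [hn]
    simp
  have hn' : (0 : ℝ) < G.n := by exact_mod_cast hn
  have hd : G.d * G.n = 2 * G.e := by
    unfold GeometricGraph.d
    field_simp
  have hd1 : 1 ≤ G.d := by
    unfold GeometricGraph.d
    rw [le_div_iff₀ hn', one_mul]
    exact_mod_cast h
  set m := ⌊G.d⌋₊ with hm
  have hm1 : 1 ≤ m := by
    rw [hm]
    exact Nat.le_floor (by exact_mod_cast hd1)
  have hle : (m : ℝ) ≤ G.d := Nat.floor_le (by linarith)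
  have hlt : G.d < m + 1 := Nat.lt_floor_add_one _
  have key := G.integer_form m
  have key' : (3 : ℝ) * (m * (m - 1)) * G.e ≤ 6 * G.DJ.ncard + (m + 1) * m * (m - 1) * G.n := by
    exact_mod_cast key
  have hm1' : (1 : ℝ) ≤ m := by exact_mod_cast hm1
  have id : (m : ℝ) * (m - 1) * (3 * G.d - 2 * m - 2) - G.d * (G.d - 1) * (G.d - 2) =
      (G.d - m) * (1 - (G.d - m)) * (3 * m - 2 + (G.d - m)) := by ring
  have pos : 0 ≤ (G.d - m) * (1 - (G.d - m)) * (3 * m - 2 + (G.d - m)) := by
    apply mul_nonneg
    · apply mul_nonneg <;> linarith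
    · linarith
  have h1 : G.n * (G.d * (G.d - 1) * (G.d - 2)) ≤ G.n * ((m : ℝ) * (m - 1) * (3 * G.d - 2 * m - 2)) := by
    apply mul_le_mul_of_nonneg_left _ hn'.le
    linarith
  unfold choose3
  have h2 : G.n * ((m : ℝ) * (m - 1) * (3 * G.d - 2 * m - 2)) =
      2 * (3 * (m * (m - 1)) * G.e - (m + 1) * m * (m - 1) * G.n) := by
    calc G.n * ((m : ℝ) * (m - 1) * (3 * G.d - 2 * m - 2))
        = (m : ℝ) * (m - 1) * (3 * (G.d * G.n) - 2 * (m + 1) * G.n) := by ring
      _ = _ := by rw [hd]; ring
  linarith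

/-- **Theorem** (Q1 of MP_390221_co).  Every geometric graph with `2e ≥ n` has at least
`(n/2) * (d choose 3)` pairs of disjoint edges, where `d = 2e/n`.  Moreover every geometric graph
has at least `e (m choose 2) - n (m+1 choose 3)` pairs of disjoint edges, for every natural
number `m`. -/
theorem result (G : GeometricGraph) :
    (G.n ≤ 2 * G.e → (G.n : ℝ) / 2 * choose3 G.d ≤ (G.DJ.ncard : ℝ)) ∧
    ∀ m : ℕ, G.e * m.choose 2 ≤ G.DJ.ncard + G.n * (m + 1).choose 3 := by
  refine ⟨q1 G, fun m => ?_⟩
  have h1 := G.integer_form m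
  have h2 := two_choose_two m
  have h3 := six_choose_three m
  have h4 : (6 : ℤ) * ((G.e * m.choose 2 : ℕ) : ℤ) ≤
      6 * ((G.DJ.ncard + G.n * (m + 1).choose 3 : ℕ) : ℤ) := by
    push_cast
    rw [← h2, ← h3] at h1
    linarith
  exact_mod_cast (by linarith : ((G.e * m.choose 2 : ℕ) : ℤ) ≤
    ((G.DJ.ncard + G.n * (m + 1).choose 3 : ℕ) : ℤ))

end Pool.Agent.Results.MP_390221_co.DisjointPairs
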